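import Pool.Agent.N697.RO.Orbit
import Pool.Agent.N92.TH.Main

/-!
# Random orbits: superelliptic curves (helper697)
-/

set_option autoImplicit false

namespace Pool.Agent.N697.RO

open MeasureTheory Filter Topology Pool.Agent.N24.RW
open Pool.Agent.TH377.Sup (Good)
open Pool.Agent.N92.TH (comb local_supply)

universe v w

/-- the integral coordinate vectors of the coefficients of bad curves are a null set -/
theorem good_pronull {R k : Type} [CommRing R] [IsDomain R] [CharZero R] [Algebra.FiniteType ℤ R]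
    [Field k] [Algebra R k] [IsFractionRing R k] {J : Type} [Fintype J] [DecidableEq J]
    (e : J → R) (j₀ : J) (he : e j₀ ≠ 0) (d : ℕ) (hd : 3 ≤ d) :
    ProNull {x : Fin (d + 2) × J → ℤ | ¬ Good.{v, w} k (comb e x)} :=
  supply_pronull (fun x : Fin (d + 2) × J → ℤ => Good.{v, w} k (comb e x)) fun B => by
    obtain ⟨U, hU, Ω, hB, hG⟩ := local_supply.{v, w} (k := k) e j₀ he d hd B
    exact ⟨U, hU, Ω, hB, hG⟩

/-- the first coordinates -/
def cut {D d : ℕ} {J : Type} (h : d ≤ D) (z : Fin (d + 2) × J) : Fin (D + 2) × J :=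
  (Fin.castLE (Nat.add_le_add_right h 2) z.1, z.2)

theorem cut_inj {D d : ℕ} {J : Type} (h : d ≤ D) :
    Function.Injective (cut (J := J) h) := by
  rintro ⟨i, j⟩ ⟨i', j'⟩ hz
  simp only [cut, Prod.mk.injEq] at hz
  exact Prod.ext (Fin.castLE_injective _ hz.1) hz.2

/-- along almost all random orbits the curves of all degrees `3 ≤ d ≤ D` are good for almost all times -/
theorem orbit_good (hclo : S_CLO) (hmain : S_MAIN) {R k : Type} [CommRing R] [IsDomain R]
    [CharZero R] [Algebra.FiniteType ℤ R] [Field k] [Algebra R k] [IsFractionRing R k] {J : Type}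
    [Fintype J] [DecidableEq J] (e : J → R) (j₀ : J) (he : e j₀ ≠ 0) (D : ℕ)
    (W : Walk (Fin (D + 2) × J)) :
    ∀ᵐ w ∂(words W.m), ∀ x : Fin (D + 2) × J → ℤ, x ≠ 0 →
      Tendsto (fun N : ℕ => (({n : ℕ | n < N ∧ orb W x w n ∈
        {y : Fin (D + 2) × J → ℤ | ∃ (d : ℕ) (h : d ≤ D), 3 ≤ d ∧
          ¬ Good.{v, w} k (comb e fun z : Fin (d + 2) × J => y (cut h z))}}.ncard : ℕ) : ℝ) /
            (N : ℝ)) atTop (𝓝 0) := by
  classical
  have hcard : 2 ≤ Fintype.card (Fin (D + 2) × J) := by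
    rw [Fintype.card_prod, Fintype.card_fin]
    have : 0 < Fintype.card J := Fintype.card_pos_iff.2 ⟨j₀⟩
    nlinarith
  refine orbit_all hmain hcard W _ ?_
  have h1 := pronull_biUnion hclo (ι := Fin (D + 2) × J) (Finset.univ : Finset (Fin (D + 1)))
    (fun d => {y : Fin (D + 2) × J → ℤ | 3 ≤ (d : ℕ) ∧
      (fun z : Fin ((d : ℕ) + 2) × J => y (cut (Nat.le_of_lt_succ d.2) z)) ∈
        {x : Fin ((d : ℕ) + 2) × J → ℤ | ¬ Good.{v, w} k (comb e x)}}) ?_
  · refine (hclo _).1 _ _ ?_ h1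
    rintro y ⟨d, h, h3, hy⟩
    exact ⟨⟨d, Nat.lt_succ_of_le h⟩, Finset.mem_univ _, h3, hy⟩
  · intro d _
    by_cases h3 : 3 ≤ (d : ℕ)
    · refine (hclo _).1 _ _ ?_ ((hclo (Fin ((d : ℕ) + 2) × J)).2.2.2.2 (Fin (D + 2) × J)
        (cut (Nat.le_of_lt_succ d.2)) (cut_inj _) _ (good_pronull.{v, w} (k := k) e j₀ he d h3))
      rintro y ⟨-, hy⟩
      exact hy
    · refine (hclo _).1 _ _ ?_ pronull_empty
      rintro y ⟨h, -⟩
      exact absurd h h3

end Pool.Agent.N697.RO
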