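import Pool.Agent.N697.RO.Supply

/-!
# Random orbits: all starting vectors at once, finite unions (helper697)
-/

set_option autoImplicit false

namespace Pool.Agent.N697.RO

open MeasureTheory Filter Topology Pool.Agent.N24.RW

theorem pronull_empty {ι : Type} [Fintype ι] : ProNull (∅ : Set (ι → ℤ)) := by
  intro M _ ε hε
  refine ⟨1, one_pos, Nat.coprime_one_left M, ?_⟩
  rw [Set.image_empty, Set.ncard_empty]
  simp only [Nat.cast_zero]
  positivity

theorem pronull_biUnion (hclo : S_CLO) {ι : Type} [Fintype ι] {α : Type} (S : Finset α)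
    (B : α → Set (ι → ℤ)) (hB : ∀ a ∈ S, ProNull (B a)) :
    ProNull {x : ι → ℤ | ∃ a ∈ S, x ∈ B a} := by
  classical
  induction S using Finset.induction_on with
  | empty =>
    refine (hclo ι).1 _ _ ?_ pronull_empty
    rintro x ⟨a, ha, -⟩
    exact absurd ha (Finset.notMem_empty a)
  | insert a S ha ih =>
    refine (hclo ι).1 _ _ ?_ ((hclo ι).2.1 _ _ (hB a (Finset.mem_insert_self a S))
      (ih fun b hb => hB b (Finset.mem_insert_of_mem hb)))
    rintro x ⟨b, hb, hx⟩
    rcases Finset.mem_insert.1 hb with rfl | hb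
    · exact Or.inl hx
    · exact Or.inr ⟨b, hb, hx⟩

theorem orbit_all (hmain : S_MAIN) {ι : Type} [Fintype ι] [DecidableEq ι]
    (hι : 2 ≤ Fintype.card ι) (W : Walk ι) (B : Set (ι → ℤ)) (hB : ProNull B) :
    ∀ᵐ w ∂(words W.m), ∀ v : ι → ℤ, v ≠ 0 →
      Tendsto (fun N : ℕ => (({n : ℕ | n < N ∧ orb W v w n ∈ B}.ncard : ℕ) : ℝ) / (N : ℝ)) atTop
        (𝓝 0) := by
  rw [ae_all_iff]
  intro v
  by_cases hv : v = 0
  · exact ae_of_all _ fun w h => absurd hv h
  · filter_upwards [hmain ι hι W v hv B hB] with w hw _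
    exact hw

end Pool.Agent.N697.RO
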