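import Pool.Agent.N24.RW.Crit

/-!
# Random orbits and local conditions modulo squares of primes (helper697)
-/

set_option autoImplicit false

namespace Pool.Agent.N697.RO

open Pool.Agent.N24.RW

/-- if for every `B` there are primes with good classes modulo their squares of total density at least
`B`, then the set of the vectors that are not good is null -/
theorem supply_pronull {ι : Type} [Fintype ι] (G : (ι → ℤ) → Prop)
    (hG : ∀ B : ℝ, ∃ U : Finset ℕ, (∀ p ∈ U, p.Prime) ∧ ∃ Ω : ∀ p : ℕ, Set (ι → ZMod (p ^ 2)),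
      B ≤ ∑ p ∈ U, ((Ω p).ncard : ℝ) / ((p ^ 2 : ℕ) : ℝ) ^ Fintype.card ι ∧
      ∀ p ∈ U, ∀ c : ι → ℤ, (fun i => (c i : ZMod (p ^ 2))) ∈ Ω p → G c) :
    ProNull {c : ι → ℤ | ¬ G c} := by
  classical
  intro M hM ε hε
  obtain ⟨U, hU, Ω, hB, hG⟩ := hG (-Real.log ε + M.primeFactors.card)
  have hpos : ∀ p ∈ U, (0 : ℝ) < ((p ^ 2 : ℕ) : ℝ) ^ Fintype.card ι := by
    intro p hp
    have h1 : 0 < p ^ 2 := pow_pos (hU p hp).pos 2
    have h2 : (0 : ℝ) < ((p ^ 2 : ℕ) : ℝ) := by exact_mod_cast h1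
    positivity
  have hcard : ∀ p ∈ U, (((Ω p)ᶜ.ncard : ℕ) : ℝ) =
      ((p ^ 2 : ℕ) : ℝ) ^ Fintype.card ι - ((Ω p).ncard : ℝ) := fun p hp =>
    crit_card (pow_pos (hU p hp).pos 2) (Ω p)
  set w : ℕ → ℝ := fun p => ((Ω p).ncard : ℝ) / ((p ^ 2 : ℕ) : ℝ) ^ Fintype.card ι with hw
  have hw1 : ∀ p ∈ U, w p ≤ 1 := by
    intro p hp
    rw [hw]
    simp only
    rw [div_le_one (hpos p hp)]
    have h1 := hcard p hp
    have h2 : (0 : ℝ) ≤ (((Ω p)ᶜ.ncard : ℕ) : ℝ) := Nat.cast_nonneg _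
    linarith
  set P : Finset ℕ := U.filter (fun p => ¬ p ∣ M) with hP
  have hPU : ∀ p ∈ P, p ∈ U := fun p hp => (Finset.mem_filter.1 hp).1
  have hsum : -Real.log ε ≤ ∑ p ∈ P, w p := by
    have h1 := Finset.sum_filter_add_sum_filter_not U (fun p => p ∣ M) w
    have h2 : ∑ p ∈ U.filter (fun p => p ∣ M), w p ≤ M.primeFactors.card := by
      calc ∑ p ∈ U.filter (fun p => p ∣ M), w p ≤ ∑ p ∈ U.filter (fun p => p ∣ M), (1 : ℝ) :=
            Finset.sum_le_sum fun p hp => hw1 p (Finset.mem_filter.1 hp).1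
        _ = ((U.filter (fun p => p ∣ M)).card : ℝ) := by simp
        _ ≤ M.primeFactors.card := by
            refine Nat.cast_le.2 (Finset.card_le_card fun p hp => ?_)
            rw [Finset.mem_filter] at hp
            exact Nat.mem_primeFactors.2 ⟨hU p hp.1, hp.2, hM.ne'⟩
    have h3 : -Real.log ε + M.primeFactors.card ≤ ∑ p ∈ U, w p := hB
    rw [← h1] at h3
    rw [hP]
    linarith
  refine ⟨∏ p ∈ P, p ^ 2, Finset.prod_pos fun p hp => pow_pos (hU p (hPU p hp)).pos 2,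
    Nat.Coprime.prod_left fun p hp => ?_, ?_⟩
  · exact Nat.Coprime.pow_left 2 ((Nat.Prime.coprime_iff_not_dvd (hU p (hPU p hp))).2
      (Finset.mem_filter.1 hp).2)
  have h1 := crit_count (Q := fun p => p ^ 2) P (fun p hp => pow_pos (hU p (hPU p hp)).pos 2)
    (fun p hp p' hp' hne => Nat.Coprime.pow 2 2
      ((Nat.coprime_primes (hU p (hPU p hp)) (hU p' (hPU p' hp'))).2 hne)) Ω
    {c : ι → ℤ | ¬ G c} (fun c hc p hp hmem => hc (hG p (hPU p hp) c hmem))
  refine (Nat.cast_le.2 h1).trans ?_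
  rw [Nat.cast_prod]
  have h2 : ∀ p ∈ P, (((Ω p)ᶜ.ncard : ℕ) : ℝ) ≤
      ((p ^ 2 : ℕ) : ℝ) ^ Fintype.card ι * Real.exp (-w p) := by
    intro p hp
    rw [hcard p (hPU p hp)]
    have h4 := Real.add_one_le_exp (-w p)
    have h5 := hpos p (hPU p hp)
    have h6 : ((Ω p).ncard : ℝ) = ((p ^ 2 : ℕ) : ℝ) ^ Fintype.card ι * w p := by
      rw [hw]
      simp only
      field_simp
    rw [h6]
    nlinarith [mul_le_mul_of_nonneg_left h4 h5.le]
  refine (Finset.prod_le_prod (fun p _ => Nat.cast_nonneg _) h2).trans ?_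
  rw [Finset.prod_mul_distrib, Finset.prod_pow, ← Real.exp_sum, Finset.sum_neg_distrib,
    Nat.cast_prod, mul_comm ε]
  refine mul_le_mul_of_nonneg_left ?_ (by positivity)
  rw [← Real.exp_log hε, Real.exp_le_exp]
  linarith

end Pool.Agent.N697.RO
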